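import Pool.Agent.BOX.StmtsG

set_option autoImplicit false

/-!
# Squad BOX (MP_be01ff_an): a fixed point lemma in weighted `l^1`, and a class of linear equations
-/

namespace Pool.Agent.BOX.H60

open Set Filter Topology Pool.Agent.BOX

noncomputable section

/-- the weight `s^|n|` -/
def rho (s : ℝ) (n : ℤ) : ℝ := s ^ n.natAbs

theorem one_le_rho {s : ℝ} (hs : 1 ≤ s) (n : ℤ) : 1 ≤ rho s n := one_le_pow₀ hs

theorem rho_neg (s : ℝ) (n : ℤ) : rho s (-n) = rho s n := by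
  unfold rho
  rw [Int.natAbs_neg]

theorem wt_rho {s : ℝ} (hs : 1 ≤ s) : Wt (rho s) := by
  refine ⟨fun g => one_le_rho hs g, fun g h => ?_⟩
  unfold rho
  rw [← pow_add]
  exact pow_le_pow_right₀ hs (Int.natAbs_add_le g h)

theorem sm_of_le {ρ x M : ℤ → ℝ} (hρ : ∀ n, 1 ≤ ρ n) (h : ∀ n, ‖x n‖ * ρ n ≤ M n)
    (hM : Summable M) : Sm ρ x ∧ nm ρ x ≤ ∑' n, M n := by
  have hs : Sm ρ x := Summable.of_nonneg_of_le
    (fun n => mul_nonneg (norm_nonneg _) (by linarith [hρ n])) h hM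
  exact ⟨hs, Summable.tsum_le_tsum h hs hM⟩

theorem le_nm {ρ x : ℤ → ℝ} (hρ : ∀ n, 1 ≤ ρ n) (hx : Sm ρ x) (n : ℤ) :
    ‖x n‖ * ρ n ≤ nm ρ x :=
  hx.le_tsum n fun j _ => mul_nonneg (norm_nonneg _) (by linarith [hρ j])

theorem abs_le_nm {ρ x : ℤ → ℝ} (hρ : ∀ n, 1 ≤ ρ n) (hx : Sm ρ x) (n : ℤ) :
    |x n| ≤ nm ρ x := by
  have h1 := le_nm hρ hx n
  rw [Real.norm_eq_abs] at h1
  have h2 : |x n| * 1 ≤ |x n| * ρ n := mul_le_mul_of_nonneg_left (hρ n) (abs_nonneg _)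
  linarith

theorem nm_nonneg {ρ x : ℤ → ℝ} (hρ : ∀ n, 1 ≤ ρ n) : 0 ≤ nm ρ x :=
  tsum_nonneg fun j => mul_nonneg (norm_nonneg _) (by linarith [hρ j])

theorem neumann (ρ : ℤ → ℝ) (hρ : ∀ n, 1 ≤ ρ n) (κ : ℝ) (h0 : 0 ≤ κ) (h1 : κ < 1)
    (L : (ℤ → ℝ) → ℤ → ℝ)
    (hsub : ∀ x y, Sm ρ x → Sm ρ y → ∀ n, L (fun n => x n - y n) n = L x n - L y n)
    (hL : ∀ x, Sm ρ x → Sm ρ (L x) ∧ nm ρ (L x) ≤ κ * nm ρ x) (f : ℤ → ℝ) (hf : Sm ρ f) :
    ∃ a, Sm ρ a ∧ ∀ n, a n = f n + L a n := by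
  have hρ0 : ∀ n, 0 < ρ n := fun n => by linarith [hρ n]
  have hp : 0 < (1 : ENNReal).toReal := by rw [ENNReal.toReal_one]; norm_num
  have hmem : ∀ x : ℤ → ℝ, Sm ρ x → Memℓp (fun n => x n * ρ n) (1 : ENNReal) := by
    intro x hx
    rw [memℓp_gen_iff hp]
    refine hx.congr fun n => ?_
    rw [ENNReal.toReal_one, Real.rpow_one, norm_mul, Real.norm_of_nonneg (hρ0 n).le]
  have hnorm : ∀ u : lp (fun _ : ℤ => ℝ) (1 : ENNReal), ‖u‖ = ∑' n, ‖u n‖ := by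
    intro u
    rw [lp.norm_eq_tsum_rpow hp]
    simp only [ENNReal.toReal_one, Real.rpow_one, div_one]
  have hsum : ∀ u : lp (fun _ : ℤ => ℝ) (1 : ENNReal), Summable fun n => ‖u n‖ := by
    intro u
    have h := lp.memℓp u
    rw [memℓp_gen_iff hp] at h
    simpa only [ENNReal.toReal_one, Real.rpow_one] using h
  have hcan : ∀ (u : ℤ → ℝ) (n : ℤ), ‖u n / ρ n‖ * ρ n = ‖u n‖ := by
    intro u n
    rw [norm_div, Real.norm_of_nonneg (hρ0 n).le, div_mul_cancel₀ _ (hρ0 n).ne']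
  have hfr : ∀ u : lp (fun _ : ℤ => ℝ) (1 : ENNReal), Sm ρ (fun n => u n / ρ n) := by
    intro u
    exact (hsum u).congr fun n => (hcan (fun n => u n) n).symm
  have hfn : ∀ u : lp (fun _ : ℤ => ℝ) (1 : ENNReal), nm ρ (fun n => u n / ρ n) = ‖u‖ := by
    intro u
    rw [hnorm]
    exact tsum_congr fun n => hcan (fun n => u n) n
  have hS : ∀ u : lp (fun _ : ℤ => ℝ) (1 : ENNReal),
      Sm ρ (fun n => f n + L (fun n => u n / ρ n) n) := by
    intro u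
    refine (sm_of_le hρ (M := fun n => ‖f n‖ * ρ n + ‖L (fun n => u n / ρ n) n‖ * ρ n) ?_
      (hf.add (hL _ (hfr u)).1)).1
    intro n
    rw [← add_mul]
    exact mul_le_mul_of_nonneg_right (norm_add_le _ _) (hρ0 n).le
  let Ψ : lp (fun _ : ℤ => ℝ) (1 : ENNReal) → lp (fun _ : ℤ => ℝ) (1 : ENNReal) := fun u =>
    ⟨fun n => (f n + L (fun n => u n / ρ n) n) * ρ n, hmem _ (hS u)⟩
  have hΨ : ∀ u n, Ψ u n = (f n + L (fun n => u n / ρ n) n) * ρ n := fun u n => rfl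
  have hlip : LipschitzWith ⟨κ, h0⟩ Ψ := by
    refine LipschitzWith.of_dist_le_mul fun u v => ?_
    rw [dist_eq_norm, dist_eq_norm, hnorm]
    show _ ≤ κ * ‖u - v‖
    have h2 : ∀ n, ‖(Ψ u - Ψ v : lp (fun _ : ℤ => ℝ) (1 : ENNReal)) n‖ =
        ‖L (fun n => (u - v : lp (fun _ : ℤ => ℝ) (1 : ENNReal)) n / ρ n) n‖ * ρ n := by
      intro n
      have h3 : (fun n => (u - v : lp (fun _ : ℤ => ℝ) (1 : ENNReal)) n / ρ n) =
          fun n => u n / ρ n - v n / ρ n := by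
        funext n
        rw [lp.coeFn_sub, Pi.sub_apply, sub_div]
      rw [h3, hsub _ _ (hfr u) (hfr v), lp.coeFn_sub, Pi.sub_apply, hΨ, hΨ, ← sub_mul, norm_mul,
        Real.norm_of_nonneg (hρ0 n).le]
      congr 2
      ring
    rw [tsum_congr h2]
    have h4 := (hL _ (hfr (u - v))).2
    rw [hfn] at h4
    exact h4
  have hc : ContractingWith ⟨κ, h0⟩ Ψ := ⟨(show (⟨κ, h0⟩ : NNReal) < 1 from h1), hlip⟩
  obtain ⟨u, hu⟩ : ∃ u, Ψ u = u := ⟨_, hc.fixedPoint_isFixedPt⟩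
  refine ⟨fun n => u n / ρ n, hfr u, fun n => ?_⟩
  have h5 : (u : ℤ → ℝ) n = (f n + L (fun n => u n / ρ n) n) * ρ n := by
    conv_lhs => rw [← hu]
  show (u : ℤ → ℝ) n / ρ n = _
  conv_lhs => rw [h5]
  rw [mul_div_assoc, div_self (hρ0 n).ne', mul_one]

/-- the families with the symmetry `σ` and support in `D` -/
structure Cl (ρ : ℤ → ℝ) (σ : ℝ) (D : ℤ → Prop) (x : ℤ → ℝ) : Prop where
  sm : Sm ρ x
  sym : ∀ n, x (-n) = σ * x n
  supp : ∀ n, ¬ D n → x n = 0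

open Classical in
theorem solve (ρ : ℤ → ℝ) (hρ : ∀ n, 1 ≤ ρ n) (hs : ∀ n, ρ (-n) = ρ n) (σ : ℝ)
    (hσ : σ = 1 ∨ σ = -1) (D : ℤ → Prop) (hD : ∀ n, D n → D (-n)) (κ : ℝ) (h0 : 0 ≤ κ)
    (h1 : κ < 1) (G : (ℤ → ℝ) → ℤ → ℝ)
    (hsub : ∀ x y, Cl ρ σ D x → Cl ρ σ D y → ∀ n, G (fun n => x n - y n) n = G x n - G y n)
    (hG : ∀ x, Cl ρ σ D x → Cl ρ σ D (G x) ∧ nm ρ (G x) ≤ κ * nm ρ x) (f : ℤ → ℝ)
    (hf : Cl ρ σ D f) : ∃ a, Cl ρ σ D a ∧ ∀ n, a n = f n + G a n := by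
  have hσ2 : σ * σ = 1 := by rcases hσ with h | h <;> rw [h] <;> norm_num
  have hσa : |σ| = 1 := by rcases hσ with h | h <;> rw [h] <;> norm_num
  have hρ0 : ∀ n, 0 < ρ n := fun n => by linarith [hρ n]
  let P : (ℤ → ℝ) → ℤ → ℝ := fun x n => if D n then (x n + σ * x (-n)) / 2 else 0
  have hPsub : ∀ x y : ℤ → ℝ, P (fun n => x n - y n) = fun n => P x n - P y n := by
    intro x y
    funext n
    by_cases h : D n
    · simp only [P, if_pos h]
      ring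
    · simp only [P, if_neg h, sub_zero]
  have hneg : ∀ x : ℤ → ℝ, Sm ρ x → Summable fun n : ℤ => ‖x (-n)‖ * ρ (-n) := by
    intro x hx
    exact (Equiv.neg ℤ).summable_iff.2 hx
  have hP : ∀ x : ℤ → ℝ, Sm ρ x → Cl ρ σ D (P x) ∧ nm ρ (P x) ≤ nm ρ x := by
    intro x hx
    have hb0 : ∀ n, ‖P x n‖ * ρ n ≤
        (1 / 2) * (‖x n‖ * ρ n) + (1 / 2) * (‖x (-n)‖ * ρ (-n)) := by
      intro n
      by_cases h : D n
      · simp only [P, if_pos h]
        rw [hs, norm_div, Real.norm_of_nonneg (by norm_num : (0 : ℝ) ≤ 2)]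
        have h3 : ‖x n + σ * x (-n)‖ ≤ ‖x n‖ + ‖x (-n)‖ := by
          refine (norm_add_le _ _).trans ?_
          rw [norm_mul, Real.norm_eq_abs σ, hσa, one_mul]
        have h4 := mul_le_mul_of_nonneg_right h3 (hρ0 n).le
        have h5 : ‖x n + σ * x (-n)‖ / 2 * ρ n = (1 / 2) * (‖x n + σ * x (-n)‖ * ρ n) := by ring
        rw [h5]
        linarith
      · simp only [P, if_neg h, norm_zero, zero_mul]
        have h3 : 0 ≤ ‖x n‖ * ρ n := mul_nonneg (norm_nonneg _) (hρ0 n).le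
        have h4 : 0 ≤ ‖x (-n)‖ * ρ (-n) := mul_nonneg (norm_nonneg _) (hρ0 _).le
        linarith
    have hsx : Summable fun n : ℤ => (1 / 2) * (‖x n‖ * ρ n) := Summable.mul_left (1 / 2) hx
    have hsy : Summable fun n : ℤ => (1 / 2) * (‖x (-n)‖ * ρ (-n)) :=
      Summable.mul_left (1 / 2) (hneg x hx)
    have hb := sm_of_le hρ hb0 (hsx.add hsy)
    · refine ⟨⟨hb.1, ?_, fun n hn => if_neg hn⟩, ?_⟩
      · intro n
        by_cases h : D n
        · simp only [P, if_pos h, if_pos (hD n h), neg_neg]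
          linear_combination (- x (-n) / 2) * hσ2
        · have h' : ¬ D (-n) := fun h' => h (by
            have := hD _ h'
            rwa [neg_neg] at this)
          simp only [P, if_neg h, if_neg h', mul_zero]
      · refine hb.2.trans (le_of_eq ?_)
        rw [Summable.tsum_add hsx hsy, tsum_mul_left, tsum_mul_left]
        have h2 : ∑' n : ℤ, ‖x (-n)‖ * ρ (-n) = nm ρ x :=
          (Equiv.neg ℤ).tsum_eq fun n => ‖x n‖ * ρ n
        rw [h2]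
        unfold nm
        ring
  have hPfix : ∀ x, Cl ρ σ D x → P x = x := by
    intro x hx
    funext n
    by_cases h : D n
    · simp only [P, if_pos h]
      rw [hx.sym n]
      linear_combination (x n / 2) * hσ2
    · simp only [P, if_neg h]
      rw [hx.supp n h]
  obtain ⟨a, ha, hfix⟩ := neumann ρ hρ κ h0 h1 (fun x => G (P x)) (by
      intro x y hx hy n
      show G (P fun n => x n - y n) n = _
      rw [hPsub]
      exact hsub _ _ (hP x hx).1 (hP y hy).1 n) (by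
      intro x hx
      refine ⟨(hG _ (hP x hx).1).1.sm, (hG _ (hP x hx).1).2.trans ?_⟩
      exact mul_le_mul_of_nonneg_left (hP x hx).2 h0) f hf.sm
  have hGa := (hG _ (hP a ha).1).1
  have hCa : Cl ρ σ D a := by
    refine ⟨ha, fun n => ?_, fun n hn => ?_⟩
    · rw [hfix, hfix n, hf.sym n]
      show σ * f n + G (P a) (-n) = _
      rw [hGa.sym n]
      ring
    · rw [hfix, hf.supp n hn]
      show 0 + G (P a) n = 0
      rw [hGa.supp n hn, add_zero]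
  refine ⟨a, hCa, fun n => ?_⟩
  have h6 := hfix n
  have h7 : G (P a) n = G a n := by rw [hPfix a hCa]
  rw [← h7]
  exact h6

end

end Pool.Agent.BOX.H60
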