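import Pool.Agent.BOX.StmtsN
import Pool.Agent.Helper60_BOX.LIN

set_option autoImplicit false

/-!
# Squad BOX (MP_be01ff_an), row INN: the linearised operator for `N ≥ 3`

The real and the imaginary part of the unknown are extended to an even and an odd real family; for
each of them the equation is a contraction.
-/

namespace Pool.Agent.BOX.H60

open Set Filter Topology Pool.Agent.BOX

noncomputable section

theorem t3_sum (t3a : T3aStmt) {ρ w x : ℤ → ℝ} (hρ : Wt ρ) (hw : Sm ρ w) (hx : Sm ρ x) (n : ℤ) :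
    Summable fun h : ℤ × ℤ => w h.1 * w h.2 * x (n - h.1 - h.2) := by
  refine Summable.of_norm (((t3a ℤ ℝ ρ w w x hρ hw hw hx).1 n).congr fun h => ?_)
  rw [norm_mul, norm_mul]

theorem t3_sm (t3a : T3aStmt) {ρ w x : ℤ → ℝ} (hρ : Wt ρ) (hw : Sm ρ w) (hx : Sm ρ x)
    (hwn : nm ρ w ≤ 5 / 2) : Sm ρ (T3 w w x) ∧ nm ρ (T3 w w x) ≤ 25 / 4 * nm ρ x := by
  have h := (t3a ℤ ℝ ρ w w x hρ hw hw hx).2
  refine ⟨h.1, h.2.trans ?_⟩
  have h0 : 0 ≤ nm ρ w := nm_nonneg hρ.1
  have h1 : 0 ≤ nm ρ x := nm_nonneg hρ.1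
  have h2 : nm ρ w * nm ρ w ≤ 25 / 4 := by nlinarith
  exact mul_le_mul_of_nonneg_right h2 h1

theorem t3_neg {w x : ℤ → ℝ} (hw : ∀ n, w (-n) = w n) {σ : ℝ} (hx : ∀ n, x (-n) = σ * x n)
    (n : ℤ) : T3 w w x (-n) = σ * T3 w w x n := by
  unfold T3
  have e := (Equiv.neg (ℤ × ℤ)).tsum_eq (fun h => w h.1 * w h.2 * x (-n - h.1 - h.2))
  rw [← e, ← tsum_mul_left]
  refine tsum_congr fun h => ?_
  show w (-h).1 * w (-h).2 * x (-n - (-h).1 - (-h).2) = σ * (w h.1 * w h.2 * x (n - h.1 - h.2))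
  rw [Prod.fst_neg, Prod.snd_neg, hw, hw]
  have h1 : -n - -h.1 - -h.2 = -(n - h.1 - h.2) := by ring
  rw [h1, hx]
  ring

theorem t3_sub (t3a : T3aStmt) {ρ w x y : ℤ → ℝ} (hρ : Wt ρ) (hw : Sm ρ w) (hx : Sm ρ x)
    (hy : Sm ρ y) (n : ℤ) :
    T3 w w (fun n => x n - y n) n = T3 w w x n - T3 w w y n := by
  unfold T3
  rw [← Summable.tsum_sub (t3_sum t3a hρ hw hx n) (t3_sum t3a hρ hw hy n)]
  refine tsum_congr fun h => ?_
  ring

open Classical in
theorem gen (t3a : T3aStmt) (ρ : ℤ → ℝ) (hρ : Wt ρ) (hs : ∀ n, ρ (-n) = ρ n) (w : ℤ → ℝ)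
    (hw : Sm ρ w) (hwn : nm ρ w ≤ 5 / 2) (hwe : ∀ n, w (-n) = w n) (σ : ℝ)
    (hσ : σ = 1 ∨ σ = -1) (D : ℤ → Prop) (hD : ∀ n, D n → D (-n)) (c : ℤ → ℝ) (Kc : ℝ)
    (hKc : 0 ≤ Kc) (hce : ∀ n, c (-n) = c n) (hc : ∀ n, |c n| ≤ Kc ∨ ¬ D n) (v : ℤ → ℝ)
    (hv : Cl ρ σ D v) (hvn : nm ρ v ≤ 1 / 4) (μ : ℝ) (hμ : 24 + Kc < μ) (f : ℤ → ℝ)
    (hf : Cl ρ σ D f) : ∃ a, Cl ρ σ D a ∧
      ∀ n, D n → μ * a n - 3 * T3 w w a n - c n * a n = f n - 3 * T3 w w a 1 * v n := by
  have hμ0 : 0 < μ := by linarith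
  have hρ0 : ∀ n, 0 < ρ n := fun n => by linarith [hρ.1 n]
  have hDn : ∀ n, ¬ D n → ¬ D (-n) := fun n h h' => h (by
    have := hD _ h'
    rwa [neg_neg] at this)
  let G : (ℤ → ℝ) → ℤ → ℝ := fun x n =>
    μ⁻¹ * ((if D n then 3 * T3 w w x n + c n * x n else 0) - 3 * T3 w w x 1 * v n)
  have hG : ∀ x, Cl ρ σ D x →
      Cl ρ σ D (G x) ∧ nm ρ (G x) ≤ (24 + Kc) / μ * nm ρ x := by
    intro x hx
    obtain ⟨hT, hTn⟩ := t3_sm t3a hρ hw hx.sm hwn
    have hT1 : |T3 w w x 1| ≤ 25 / 4 * nm ρ x := (abs_le_nm hρ.1 hT 1).trans hTn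
    have hb0 : ∀ n, ‖G x n‖ * ρ n ≤ μ⁻¹ * (3 * (‖T3 w w x n‖ * ρ n) + Kc * (‖x n‖ * ρ n) +
        3 * |T3 w w x 1| * (‖v n‖ * ρ n)) := by
      intro n
      have h1 : ‖(if D n then 3 * T3 w w x n + c n * x n else 0) - 3 * T3 w w x 1 * v n‖ ≤
          3 * ‖T3 w w x n‖ + Kc * ‖x n‖ + 3 * |T3 w w x 1| * ‖v n‖ := by
        refine (norm_sub_le _ _).trans ?_
        have h2 : ‖3 * T3 w w x 1 * v n‖ = 3 * |T3 w w x 1| * ‖v n‖ := by
          rw [norm_mul, norm_mul, Real.norm_of_nonneg (by norm_num : (0 : ℝ) ≤ 3),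
            Real.norm_eq_abs (T3 w w x 1)]
        rw [h2]
        have h3 : ‖(if D n then 3 * T3 w w x n + c n * x n else 0)‖ ≤
            3 * ‖T3 w w x n‖ + Kc * ‖x n‖ := by
          by_cases h : D n
          · rw [if_pos h]
            refine (norm_add_le _ _).trans ?_
            rw [norm_mul, norm_mul, Real.norm_of_nonneg (by norm_num : (0 : ℝ) ≤ 3),
              Real.norm_eq_abs (c n)]
            have h4 := (hc n).resolve_right (not_not.2 h)
            have h5 := mul_le_mul_of_nonneg_right h4 (norm_nonneg (x n))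
            linarith
          · rw [if_neg h, norm_zero]
            have h4 := norm_nonneg (T3 w w x n)
            have h5 := mul_nonneg hKc (norm_nonneg (x n))
            linarith
        linarith
      have h6 : ‖G x n‖ = μ⁻¹ *
          ‖(if D n then 3 * T3 w w x n + c n * x n else 0) - 3 * T3 w w x 1 * v n‖ := by
        show ‖μ⁻¹ * _‖ = _
        rw [norm_mul, Real.norm_of_nonneg (inv_pos.2 hμ0).le]
      rw [h6, mul_assoc]
      refine mul_le_mul_of_nonneg_left ?_ (inv_pos.2 hμ0).le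
      have h7 := mul_le_mul_of_nonneg_right h1 (hρ0 n).le
      refine h7.trans (le_of_eq ?_)
      ring
    have hs1 : Summable fun n : ℤ => 3 * (‖T3 w w x n‖ * ρ n) := Summable.mul_left 3 hT
    have hs2 : Summable fun n : ℤ => Kc * (‖x n‖ * ρ n) := Summable.mul_left Kc hx.sm
    have hs3 : Summable fun n : ℤ => 3 * |T3 w w x 1| * (‖v n‖ * ρ n) :=
      Summable.mul_left (3 * |T3 w w x 1|) hv.sm
    have hb := sm_of_le hρ.1 hb0 (((hs1.add hs2).add hs3).mul_left μ⁻¹)
    refine ⟨⟨hb.1, fun n => ?_, fun n hn => ?_⟩, hb.2.trans ?_⟩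
    · show μ⁻¹ * _ = σ * (μ⁻¹ * _)
      by_cases h : D n
      · rw [if_pos h, if_pos (hD n h), t3_neg hwe hx.sym, hce, hx.sym, hv.sym]
        ring
      · rw [if_neg h, if_neg (hDn n h), hv.sym]
        ring
    · show μ⁻¹ * _ = 0
      rw [if_neg hn, hv.supp n hn]
      ring
    · rw [tsum_mul_left, Summable.tsum_add (hs1.add hs2) hs3, Summable.tsum_add hs1 hs2,
        tsum_mul_left, tsum_mul_left, tsum_mul_left]
      show μ⁻¹ * (3 * nm ρ (T3 w w x) + Kc * nm ρ x + 3 * |T3 w w x 1| * nm ρ v) ≤ _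
      have h0 : 0 ≤ nm ρ x := nm_nonneg hρ.1
      have h1 : 3 * |T3 w w x 1| * nm ρ v ≤ 3 * |T3 w w x 1| * (1 / 4) :=
        mul_le_mul_of_nonneg_left hvn (mul_nonneg (by norm_num) (abs_nonneg _))
      have h2 : 3 * nm ρ (T3 w w x) + Kc * nm ρ x + 3 * |T3 w w x 1| * nm ρ v ≤
          (24 + Kc) * nm ρ x := by nlinarith
      have h3 : (24 + Kc) / μ * nm ρ x = μ⁻¹ * ((24 + Kc) * nm ρ x) := by
        rw [div_eq_mul_inv]
        ring
      rw [h3]
      exact mul_le_mul_of_nonneg_left h2 (inv_pos.2 hμ0).le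
  have hsub : ∀ x y, Cl ρ σ D x → Cl ρ σ D y → ∀ n,
      G (fun n => x n - y n) n = G x n - G y n := by
    intro x y hx hy n
    show μ⁻¹ * _ = μ⁻¹ * _ - μ⁻¹ * _
    rw [t3_sub t3a hρ hw hx.sm hy.sm, t3_sub t3a hρ hw hx.sm hy.sm]
    by_cases h : D n
    · rw [if_pos h, if_pos h, if_pos h]
      ring
    · rw [if_neg h, if_neg h, if_neg h]
      ring
  have hf' : Cl ρ σ D fun n => μ⁻¹ * f n := by
    refine ⟨?_, fun n => ?_, fun n hn => ?_⟩
    · have h := Summable.mul_left μ⁻¹ hf.sm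
      refine (h.congr fun n => ?_)
      rw [norm_mul, Real.norm_of_nonneg (inv_pos.2 hμ0).le]
      ring
    · rw [hf.sym]
      ring
    · rw [hf.supp n hn, mul_zero]
  obtain ⟨a, ha, hfix⟩ := solve ρ hρ.1 hs σ hσ D hD ((24 + Kc) / μ) (by positivity)
    ((div_lt_one hμ0).2 hμ) G hsub hG _ hf'
  refine ⟨a, ha, fun n hn => ?_⟩
  obtain ⟨X, hX⟩ : ∃ X, X = (3 * T3 w w a n + c n * a n) - 3 * T3 w w a 1 * v n := ⟨_, rfl⟩
  have h2 : G a n = μ⁻¹ * X := by
    show μ⁻¹ * _ = _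
    rw [if_pos hn, hX]
  have h1 : a n = μ⁻¹ * f n + μ⁻¹ * X := by
    rw [← h2]
    exact hfix n
  have h3 : μ * a n = f n + X := by
    rw [h1]
    field_simp
  linarith

/-- the families `w` of a profile in a small weight -/
theorem prf (N : ℕ) (w : ℤ → ℝ) (ν r s : ℝ) (hw : Prf3 N w ν r) (h1 : 1 ≤ s) (hsr : s ≤ r)
    (hs : s ≤ 9 / 8) : Sm (rho s) w ∧ nm (rho s) w ≤ 5 / 2 ∧
      Sm (rho s) (fun n => if n = 1 ∨ n = -1 then 0 else w n) ∧
      nm (rho s) (fun n => if n = 1 ∨ n = -1 then 0 else w n) ≤ 1 / 4 := by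
  have hr1 : 1 < r := hw.r1
  have hr := wt_rho hr1.le
  have hsw := wt_rho h1
  have hmono : ∀ n : ℤ, rho s n ≤ rho r n := fun n => by
    unfold rho
    exact pow_le_pow_left₀ (by linarith) hsr _
  obtain ⟨g, hg⟩ : ∃ g : ℤ → ℝ, g = fun n => if n = 1 ∨ n = -1 then 0 else w n := ⟨_, rfl⟩
  rw [← hg]
  have hS : Summable fun n => ‖w n‖ * rho r n := hw.sum
  have hSn : ∑' n, ‖w n‖ * rho r n ≤ 2 * r + 1 / 4 := hw.small
  have hw1 : w 1 = 1 := hw.one
  have hw2 : w (-1) = 1 := by rw [hw.even, hw1]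
  -- for a weight `t`
  have key : ∀ t : ℝ, 1 ≤ t → (Summable fun n => ‖w n‖ * rho t n) →
      (Summable fun n => ‖g n‖ * rho t n) ∧
      ∑' n, ‖w n‖ * rho t n = 2 * t + ∑' n, ‖g n‖ * rho t n := by
    intro t ht hSt
    have hpt : ∀ n, ‖w n‖ * rho t n =
        (if n = 1 ∨ n = -1 then t else 0) + ‖g n‖ * rho t n := by
      intro n
      rw [hg]
      by_cases h : n = 1 ∨ n = -1
      · simp only [if_pos h, norm_zero, zero_mul, add_zero]
        rcases h with h | h
        · rw [h, hw1]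
          simp [rho]
        · rw [h, hw2]
          simp [rho]
      · simp only [if_neg h, zero_add]
    have hle : ∀ n, ‖g n‖ * rho t n ≤ ‖w n‖ * rho t n := by
      intro n
      rw [hpt n]
      have : (0 : ℝ) ≤ if n = 1 ∨ n = -1 then t else 0 := by
        split_ifs
        · linarith
        · exact le_rfl
      linarith
    have hSg : Summable fun n => ‖g n‖ * rho t n := Summable.of_nonneg_of_le
      (fun n => mul_nonneg (norm_nonneg _) (by linarith [one_le_rho ht n])) hle hSt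
    refine ⟨hSg, ?_⟩
    have hsupp : ∀ n ∉ ({1, -1} : Finset ℤ), (if n = 1 ∨ n = -1 then t else 0) = 0 := by
      intro n hn
      rw [if_neg]
      intro h
      apply hn
      rcases h with h | h
      · rw [h]; simp
      · rw [h]; simp
    have hfin : ∑' n : ℤ, (if n = 1 ∨ n = -1 then t else 0) = 2 * t := by
      rw [tsum_eq_sum hsupp, Finset.sum_pair (by norm_num)]
      rw [if_pos (Or.inl rfl), if_pos (Or.inr rfl)]
      ring
    rw [tsum_congr hpt, Summable.tsum_add (summable_of_ne_finset_zero hsupp) hSg, hfin]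
  obtain ⟨hgr, heq⟩ := key r hr1.le hS
  have hgr' : ∑' n, ‖g n‖ * rho r n ≤ 1 / 4 := by linarith
  have hws : Summable fun n => ‖w n‖ * rho s n := Summable.of_nonneg_of_le
    (fun n => mul_nonneg (norm_nonneg _) (by linarith [one_le_rho h1 n]))
    (fun n => mul_le_mul_of_nonneg_left (hmono n) (norm_nonneg _)) hS
  obtain ⟨hgs, heqs⟩ := key s h1 hws
  have hgs' : ∑' n, ‖g n‖ * rho s n ≤ 1 / 4 := (Summable.tsum_le_tsum
    (fun n => mul_le_mul_of_nonneg_left (hmono n) (norm_nonneg _)) hgs hgr).trans hgr'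
  refine ⟨hws, ?_, hgs, hgs'⟩
  show ∑' n, ‖w n‖ * rho s n ≤ 5 / 2
  linarith

theorem pr_ofReal (f g : ℤ → ℝ) :
    pr (fun q => (f q : ℂ)) (fun q => (g q : ℂ)) = ((∑' q, f q * g (-q) : ℝ) : ℂ) := by
  unfold pr
  rw [Complex.ofReal_tsum]
  refine tsum_congr fun q => ?_
  push_cast
  ring

theorem t3_ofReal (f g h : ℤ → ℝ) (n : ℤ) :
    T3 (fun q => (f q : ℂ)) (fun q => (g q : ℂ)) (fun q => (h q : ℂ)) n =
      ((T3 f g h n : ℝ) : ℂ) := by
  unfold T3
  rw [Complex.ofReal_tsum]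
  refine tsum_congr fun q => ?_
  push_cast
  ring

theorem inn (t3a : T3aStmt) : InnStmt := by
  classical
  intro N w ν r hN hw μ hμ F hF
  obtain ⟨rF, hrF, hSF⟩ := hF
  obtain ⟨A, hA⟩ : ∃ A : ℝ, A = 2 ^ N - 1 := ⟨_, rfl⟩
  obtain ⟨C, hC⟩ : ∃ C : ℝ, C = 3 ^ N - 2 ^ (N + 1) + 1 := ⟨_, rfl⟩
  have hA7 : 7 ≤ A := by
    have h1 : (2 : ℝ) ^ 3 ≤ 2 ^ N := pow_le_pow_right₀ (by norm_num) hN
    rw [hA]
    linarith
  have hC0 : 0 ≤ C := by
    have h1 : (2 : ℝ) * 2 ^ N ≤ 3 ^ N := by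
      clear hw hA hC hA7
      induction N, hN using Nat.le_induction with
      | base => norm_num
      | succ M hM ih =>
        rw [pow_succ, pow_succ]
        have h2 : (0 : ℝ) < 2 ^ M := by positivity
        have h3 : (0 : ℝ) < 3 ^ M := by positivity
        nlinarith
    rw [hC, pow_succ]
    linarith
  have hν : 3 * C + 2 + 6 * A ≤ ν := by
    have h := hw.ν1
    unfold cN at h
    rw [hA, hC]
    linarith
  rw [← hA, ← hC]
  have hμ' : 24 + (15 / 2 * A + 3 * C) < μ := by linarith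
  obtain ⟨s, h1s, hsr, hs8, hsF⟩ : ∃ s : ℝ, 1 < s ∧ s ≤ r ∧ s ≤ 9 / 8 ∧ s ≤ rF :=
    ⟨min r (min (9 / 8) rF), lt_min hw.r1 (lt_min (by norm_num) hrF), min_le_left _ _,
      (min_le_right _ _).trans (min_le_left _ _), (min_le_right _ _).trans (min_le_right _ _)⟩
  obtain ⟨hSw, hnw, hSg, hng⟩ := prf N w ν r s hw h1s.le hsr hs8
  have hρ : Wt (rho s) := wt_rho h1s.le
  have hρ0 : ∀ n, 0 < rho s n := fun n => by linarith [hρ.1 n]
  obtain ⟨g, hg⟩ : ∃ g : ℤ → ℝ, g = fun n => if n = 1 ∨ n = -1 then 0 else w n := ⟨_, rfl⟩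
  rw [← hg] at hSg hng
  have hw1 : w 1 = 1 := hw.one
  have hw2 : w (-1) = 1 := by rw [hw.even, hw1]
  have hw4 : ∀ n, ¬ (n = 1 ∨ n = -1) → |w n| ≤ 1 / 4 := by
    intro n hn
    have h1 := (abs_le_nm hρ.1 hSg n).trans hng
    rw [hg] at h1
    simp only [if_neg hn] at h1
    exact h1
  have hwle : ∀ n, |w n| ≤ 1 := by
    intro n
    by_cases hn : n = 1 ∨ n = -1
    · rcases hn with h | h
      · rw [h, hw1]; norm_num
      · rw [h, hw2]; norm_num
    · linarith [hw4 n hn]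
  -- the constant `m`
  have hSm : Summable fun q : ℤ => w q * w (-q) := by
    refine Summable.of_norm_bounded hSw fun q => ?_
    rw [norm_mul, hw.even]
    have h1 := hwle q
    have h2 := hρ.1 q
    have h3 : 0 ≤ ‖w q‖ := norm_nonneg _
    rw [Real.norm_eq_abs] at h3 ⊢
    nlinarith
  obtain ⟨m, hm⟩ : ∃ m : ℝ, m = ∑' q : ℤ, w q * w (-q) := ⟨_, rfl⟩
  have hm0 : 0 ≤ m := by
    rw [hm]
    refine tsum_nonneg fun q => ?_
    rw [hw.even]
    exact mul_self_nonneg _
  have hm5 : m ≤ 5 / 2 := by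
    rw [hm]
    refine (Summable.tsum_le_tsum (fun q => ?_) hSm hSw).trans hnw
    have h1 := hwle q
    have h2 := hρ.1 q
    have h3 : 0 ≤ |w q| := abs_nonneg _
    rw [Real.norm_eq_abs, hw.even]
    have h4 : w q * w q = |w q| * |w q| := (abs_mul_abs_self (w q)).symm
    rw [h4]
    nlinarith
  -- summability of `F`
  have hSF' : Summable fun n : ℤ => ‖F n‖ * rho s n := by
    refine Summable.of_nonneg_of_le (fun n => mul_nonneg (norm_nonneg _) (hρ0 n).le)
      (fun n => ?_) hSF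
    refine mul_le_mul_of_nonneg_left ?_ (norm_nonneg _)
    unfold rho
    exact pow_le_pow_left₀ (by linarith) hsF _
  have hSF2 : Summable fun n : ℤ => ‖F n‖ * rho s n + ‖F (-n)‖ * rho s (-n) :=
    hSF'.add ((Equiv.neg ℤ).summable_iff.2 hSF')
  have hnonF : ∀ n : ℤ, 0 ≤ ‖F n‖ * rho s n := fun n => mul_nonneg (norm_nonneg _) (hρ0 n).le
  -- the even part
  have hD1 : ∀ n : ℤ, (Odd n ∧ n ≠ 1 ∧ n ≠ -1) → (Odd (-n) ∧ -n ≠ 1 ∧ -n ≠ -1) := by
    rintro n ⟨h1, h2, h3⟩
    refine ⟨h1.neg, ?_, ?_⟩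
    · intro h
      exact h3 (by omega)
    · intro h
      exact h2 (by omega)
  have hgCl : Cl (rho s) 1 (fun n => Odd n ∧ n ≠ 1 ∧ n ≠ -1) g := by
    refine ⟨hSg, fun n => ?_, fun n hn => ?_⟩
    · rw [hg, one_mul]
      by_cases h : n = 1 ∨ n = -1
      · have h' : -n = 1 ∨ -n = -1 := by omega
        simp only [if_pos h, if_pos h']
      · have h' : ¬ (-n = 1 ∨ -n = -1) := by omega
        simp only [if_neg h, if_neg h']
        exact hw.even n
    · rw [hg]
      by_cases h : n = 1 ∨ n = -1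
      · simp only [if_pos h]
      · simp only [if_neg h]
        refine hw.odd n fun ho => hn ⟨ho, ?_, ?_⟩
        · exact fun h' => h (Or.inl h')
        · exact fun h' => h (Or.inr h')
  obtain ⟨f1, hf1⟩ : ∃ f1 : ℤ → ℝ, f1 = fun n => if Odd n ∧ n ≠ 1 ∧ n ≠ -1 then
      (F |n|).re - (F 1).re * g n else 0 := ⟨_, rfl⟩
  have hf1Cl : Cl (rho s) 1 (fun n => Odd n ∧ n ≠ 1 ∧ n ≠ -1) f1 := by
    refine ⟨?_, fun n => ?_, fun n hn => ?_⟩
    · have hS3 : Summable fun n : ℤ => (‖F n‖ * rho s n + ‖F (-n)‖ * rho s (-n)) +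
          |(F 1).re| * (‖g n‖ * rho s n) := hSF2.add (Summable.mul_left _ hSg)
      refine (sm_of_le hρ.1 (fun n => ?_) hS3).1
      have hgn : 0 ≤ |(F 1).re| * (‖g n‖ * rho s n) :=
        mul_nonneg (abs_nonneg _) (mul_nonneg (norm_nonneg _) (hρ0 n).le)
      rw [hf1]
      by_cases h : Odd n ∧ n ≠ 1 ∧ n ≠ -1
      · simp only [if_pos h]
        have h1 : ‖(F |n|).re - (F 1).re * g n‖ ≤ ‖F |n|‖ + |(F 1).re| * ‖g n‖ := by
          refine (norm_sub_le _ _).trans ?_
          rw [norm_mul, Real.norm_eq_abs (F 1).re]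
          have h2 : ‖(F |n|).re‖ ≤ ‖F |n|‖ := Complex.abs_re_le_norm _
          linarith
        have h2 := mul_le_mul_of_nonneg_right h1 (hρ0 n).le
        have h3 : ‖F |n|‖ * rho s n ≤ ‖F n‖ * rho s n + ‖F (-n)‖ * rho s (-n) := by
          rcases abs_choice n with h4 | h4
          · rw [h4]
            linarith [hnonF (-n)]
          · rw [h4]
            have h5 : ‖F (-n)‖ * rho s n = ‖F (-n)‖ * rho s (-n) := by rw [rho_neg]
            linarith [hnonF n]
        have h4 : (‖F |n|‖ + |(F 1).re| * ‖g n‖) * rho s n =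
            ‖F |n|‖ * rho s n + |(F 1).re| * (‖g n‖ * rho s n) := by ring
        linarith
      · simp only [if_neg h, norm_zero, zero_mul]
        linarith [hnonF n, hnonF (-n)]
    · rw [hf1, one_mul]
      by_cases h : Odd n ∧ n ≠ 1 ∧ n ≠ -1
      · simp only [if_pos h, if_pos (hD1 n h)]
        rw [abs_neg, hgCl.sym, one_mul]
      · have h' : ¬ (Odd (-n) ∧ -n ≠ 1 ∧ -n ≠ -1) := fun h' => h (by
          have := hD1 _ h'
          rwa [neg_neg] at this)
        simp only [if_neg h, if_neg h']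
    · rw [hf1]
      exact if_neg hn
  have hwsq : ∀ n, w n ^ 2 ≤ 1 := by
    intro n
    rw [← sq_abs]
    have h1 := hwle n
    have h2 := abs_nonneg (w n)
    nlinarith
  obtain ⟨a, ha, hae⟩ := gen t3a (rho s) hρ (rho_neg s) w hSw hnw hw.even 1 (Or.inl rfl)
    (fun n => Odd n ∧ n ≠ 1 ∧ n ≠ -1) hD1 (fun n => 3 * A * m + 9 * C * w n ^ 2)
    (15 / 2 * A + 3 * C) (by linarith) (fun n => by rw [hw.even]) (fun n => by
      by_cases h : Odd n ∧ n ≠ 1 ∧ n ≠ -1
      · left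
        have h1 : |w n| ≤ 1 / 4 := hw4 n (fun h' => h'.elim h.2.1 h.2.2)
        have h2 : w n ^ 2 ≤ 1 / 16 := by
          rw [← sq_abs]
          have h3 := abs_nonneg (w n)
          nlinarith
        have h3 : 0 ≤ w n ^ 2 := sq_nonneg _
        have h4 : 0 ≤ A * m := mul_nonneg (by linarith) hm0
        have h5 : A * m ≤ A * (5 / 2) := mul_le_mul_of_nonneg_left hm5 (by linarith)
        have h6 : C * w n ^ 2 ≤ C * (1 / 16) := mul_le_mul_of_nonneg_left h2 hC0
        have h7 : 0 ≤ C * w n ^ 2 := mul_nonneg hC0 h3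
        rw [abs_le]
        constructor <;> nlinarith
      · exact Or.inr h) g hgCl hng μ hμ' f1 hf1Cl
  -- the odd part
  obtain ⟨f2, hf2⟩ : ∃ f2 : ℤ → ℝ, f2 = fun n => if Odd n then
      (if 0 < n then (F n).im else -(F (-n)).im) else 0 := ⟨_, rfl⟩
  have hf2Cl : Cl (rho s) (-1) (fun n => Odd n) f2 := by
    refine ⟨?_, fun n => ?_, fun n hn => ?_⟩
    · refine (sm_of_le hρ.1 (fun n => ?_) hSF2).1
      rw [hf2]
      by_cases h : Odd n
      · simp only [if_pos h]
        by_cases h0 : 0 < n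
        · simp only [if_pos h0]
          have h2 : ‖(F n).im‖ ≤ ‖F n‖ := Complex.abs_im_le_norm _
          have h3 := mul_le_mul_of_nonneg_right h2 (hρ0 n).le
          linarith [hnonF (-n)]
        · simp only [if_neg h0, norm_neg]
          have h2 : ‖(F (-n)).im‖ ≤ ‖F (-n)‖ := Complex.abs_im_le_norm _
          have h3 := mul_le_mul_of_nonneg_right h2 (hρ0 n).le
          have h5 : ‖F (-n)‖ * rho s n = ‖F (-n)‖ * rho s (-n) := by rw [rho_neg]
          linarith [hnonF n]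
      · simp only [if_neg h, norm_zero, zero_mul]
        linarith [hnonF n, hnonF (-n)]
    · rw [hf2]
      by_cases h : Odd n
      · have h' : Odd (-n) := h.neg
        simp only [if_pos h, if_pos h']
        have hn0 : n ≠ 0 := by
          rintro rfl
          exact absurd h (by decide)
        by_cases h0 : 0 < n
        · have h0' : ¬ (0 < -n) := by omega
          rw [if_pos h0, if_neg h0', neg_neg]
          ring
        · have h0' : 0 < -n := by omega
          rw [if_neg h0, if_pos h0']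
          ring
      · have h' : ¬ Odd (-n) := fun h' => h (by
          have := h'.neg
          rwa [neg_neg] at this)
        simp only [if_neg h, if_neg h', mul_zero]
    · rw [hf2]
      exact if_neg hn
  have h0Cl : Cl (rho s) (-1) (fun n => Odd n) fun _ => (0 : ℝ) := by
    refine ⟨?_, fun n => by ring, fun n _ => rfl⟩
    show Summable fun g : ℤ => ‖(0 : ℝ)‖ * rho s g
    simp only [norm_zero, zero_mul]
    exact summable_zero
  have h0n : nm (rho s) (fun _ : ℤ => (0 : ℝ)) ≤ 1 / 4 := by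
    show ∑' g : ℤ, ‖(0 : ℝ)‖ * rho s g ≤ 1 / 4
    simp only [norm_zero, zero_mul, tsum_zero]
    norm_num
  obtain ⟨b, hb, hbe⟩ := gen t3a (rho s) hρ (rho_neg s) w hSw hnw hw.even (-1) (Or.inr rfl)
    (fun n => Odd n) (fun n h => h.neg) (fun n => 3 * A * m + 3 * C * w n ^ 2)
    (15 / 2 * A + 3 * C) (by linarith) (fun n => by rw [hw.even]) (fun n => by
      left
      have h2 := hwsq n
      have h3 : 0 ≤ w n ^ 2 := sq_nonneg _
      have h4 : 0 ≤ A * m := mul_nonneg (by linarith) hm0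
      have h5 : A * m ≤ A * (5 / 2) := mul_le_mul_of_nonneg_left hm5 (by linarith)
      have h6 : C * w n ^ 2 ≤ C * 1 := mul_le_mul_of_nonneg_left h2 hC0
      have h7 : 0 ≤ C * w n ^ 2 := mul_nonneg hC0 h3
      rw [abs_le]
      constructor <;> nlinarith) (fun _ => 0) h0Cl h0n μ hμ' f2 hf2Cl
  -- the pairings
  have hprs : ∀ x : ℤ → ℝ, Sm (rho s) x → Summable fun q : ℤ => w q * x (-q) := by
    intro x hx
    have hx' : Summable fun n : ℤ => ‖x (-n)‖ * rho s (-n) := (Equiv.neg ℤ).summable_iff.2 hx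
    refine Summable.of_norm_bounded hx' fun q => ?_
    rw [norm_mul]
    have h1 := hwle q
    have h2 := hρ.1 (-q)
    have h3 : 0 ≤ ‖x (-q)‖ := norm_nonneg _
    have h4 : 0 ≤ |w q| := abs_nonneg _
    rw [Real.norm_eq_abs (w q)]
    nlinarith
  obtain ⟨P, hP⟩ : ∃ P : ℝ, P = ∑' q : ℤ, w q * a (-q) := ⟨_, rfl⟩
  have hQ : ∑' q : ℤ, w q * b (-q) = 0 := by
    have e := (Equiv.neg ℤ).tsum_eq (fun q => w q * b (-q))
    have e2 : ∑' q : ℤ, w ((Equiv.neg ℤ) q) * b (-((Equiv.neg ℤ) q)) =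
        - ∑' q : ℤ, w q * b (-q) := by
      rw [← tsum_neg]
      refine tsum_congr fun q => ?_
      show w (-q) * b (- -q) = -(w q * b (-q))
      rw [hw.even, hb.sym (-q)]
      ring
    rw [e2] at e
    linarith
  obtain ⟨h, hh⟩ : ∃ h : ℤ → ℂ, h = fun n => (a n : ℂ) + (b n : ℂ) * Complex.I := ⟨_, rfl⟩
  have hT : ∀ n, T3 (fun q => (w q : ℂ)) (fun q => (w q : ℂ)) h n =
      ((T3 w w a n : ℝ) : ℂ) + ((T3 w w b n : ℝ) : ℂ) * Complex.I := by
    intro n
    have s1 := (t3_sum t3a hρ hSw ha.sm n).hasSum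
    have s2 := (t3_sum t3a hρ hSw hb.sm n).hasSum
    have s1' := Complex.hasSum_ofReal.2 s1
    have s2' := Complex.hasSum_ofReal.2 s2
    have s3 := (s1'.add (s2'.mul_right Complex.I)).tsum_eq
    rw [hh]
    unfold T3
    rw [← s3]
    refine tsum_congr fun q => ?_
    push_cast
    ring
  have hPR : pr (fun q => (w q : ℂ)) h = (P : ℂ) := by
    have s1 := (hprs a ha.sm).hasSum
    have s2 := (hprs b hb.sm).hasSum
    rw [← hP] at s1
    rw [hQ] at s2
    have s1' := Complex.hasSum_ofReal.2 s1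
    have s2' := Complex.hasSum_ofReal.2 s2
    have s3 := (s1'.add (s2'.mul_right Complex.I)).tsum_eq
    rw [hh]
    unfold pr
    rw [Complex.ofReal_zero, zero_mul, add_zero] at s3
    rw [← s3]
    refine tsum_congr fun q => ?_
    push_cast
    ring
  have hPW : pr (fun q => (w q : ℂ)) (fun q => (w q : ℂ)) = (m : ℂ) := by
    rw [pr_ofReal, ← hm]
  obtain ⟨z, hz⟩ : ∃ z : ℤ → ℂ, z = fun n => if 0 < n then h n else 0 := ⟨_, rfl⟩
  have hhat : hat z = h := by
    funext n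
    unfold hat
    by_cases h0 : 0 < n
    · rw [if_pos h0, hz]
      simp only [if_pos h0]
    · rw [if_neg h0]
      by_cases h1 : n < 0
      · have h2 : 0 < -n := by omega
        rw [if_pos h1, hz]
        simp only [if_pos h2]
        rw [hh]
        simp only [map_add, map_mul, Complex.conj_ofReal, Complex.conj_I]
        rw [ha.sym, hb.sym]
        push_cast
        ring
      · have h2 : n = 0 := by omega
        have h3 : ¬ Odd (0 : ℤ) := by decide
        rw [if_neg h1, hh, h2]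
        show (0 : ℂ) = (a 0 : ℂ) + (b 0 : ℂ) * Complex.I
        rw [ha.supp 0 (fun h4 => h3 h4.1), hb.supp 0 h3]
        simp
  refine ⟨z, (F 1).re + 3 * T3 w w a 1 + 6 * A * P, ?_, ?_, ?_, ?_⟩
  · refine ⟨s, h1s, ?_⟩
    have hS4 : Summable fun n : ℤ => ‖a n‖ * rho s n + ‖b n‖ * rho s n := ha.sm.add hb.sm
    refine Summable.of_nonneg_of_le (fun n => mul_nonneg (norm_nonneg _) (hρ0 n).le)
      (fun n => ?_) hS4
    show ‖z n‖ * rho s n ≤ _
    have h1 : ‖z n‖ ≤ ‖a n‖ + ‖b n‖ := by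
      rw [hz]
      by_cases h0 : 0 < n
      · simp only [if_pos h0]
        rw [hh]
        refine (norm_add_le _ _).trans ?_
        rw [norm_mul, Complex.norm_I, mul_one, Complex.norm_real, Complex.norm_real]
      · simp only [if_neg h0, norm_zero]
        have h2 := norm_nonneg (a n)
        have h3 := norm_nonneg (b n)
        linarith
    have h2 := mul_le_mul_of_nonneg_right h1 (hρ0 n).le
    linarith
  · intro n hn
    rw [hz]
    by_cases h0 : 0 < n
    · simp only [if_pos h0]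
      rw [hh]
      show (a n : ℂ) + (b n : ℂ) * Complex.I = 0
      rw [ha.supp n (fun h4 => hn h4.1), hb.supp n hn]
      simp
    · simp only [if_neg h0]
  · intro n hn
    rw [hz]
    exact if_neg (not_lt.2 hn)
  · intro n hn ho
    have hzn : z n = (a n : ℂ) + (b n : ℂ) * Complex.I := by
      rw [hz]
      simp only [if_pos hn]
      rw [hh]
    have hhn : h n = (a n : ℂ) + (b n : ℂ) * Complex.I := by rw [hh]
    have hhm : h (-n) = (a n : ℂ) - (b n : ℂ) * Complex.I := by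
      rw [hh]
      show (a (-n) : ℂ) + (b (-n) : ℂ) * Complex.I = _
      rw [ha.sym, hb.sym]
      push_cast
      ring
    have hre : μ * a n - 3 * T3 w w a n - (3 * A * m + 9 * C * w n ^ 2) * a n - 6 * A * P * w n =
        (F n).re - ((F 1).re + 3 * T3 w w a 1 + 6 * A * P) * w n := by
      by_cases h1 : n = 1
      · rw [h1, hw1, ha.supp 1 (fun h4 => h4.2.1 rfl)]
        ring
      · have hD : Odd n ∧ n ≠ 1 ∧ n ≠ -1 := ⟨ho, h1, by omega⟩
        have e1 := hae n hD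
        have e2 : f1 n = (F n).re - (F 1).re * g n := by
          rw [hf1]
          simp only [if_pos hD]
          rw [abs_of_pos hn]
        have e3 : g n = w n := by
          rw [hg]
          have : ¬ (n = 1 ∨ n = -1) := by omega
          simp only [if_neg this]
        rw [e2, e3] at e1
        linear_combination e1
    have him : μ * b n - 3 * T3 w w b n - (3 * A * m + 3 * C * w n ^ 2) * b n = (F n).im := by
      have e1 := hbe n ho
      have e2 : f2 n = (F n).im := by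
        rw [hf2]
        simp only [if_pos ho, if_pos hn]
      rw [e2] at e1
      linear_combination e1
    have hreC := congrArg (fun t : ℝ => (t : ℂ)) hre
    have himC := congrArg (fun t : ℝ => (t : ℂ)) him
    push_cast at hreC himC
    rw [hzn, hhat]
    unfold K1
    rw [hT n, hPR, hPW, hhn, hhm]
    have hFn : F n = ((F n).re : ℂ) + ((F n).im : ℂ) * Complex.I := (Complex.re_add_im (F n)).symm
    beta_reduce
    rw [hw.even n]
    push_cast
    linear_combination hreC + Complex.I * himC - hFn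

end

end Pool.Agent.BOX.H60
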